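import Pool.Agent.Helper48_LPY.Stmts
import Pool.Agent.Helper23_LAP.Basic
import Pool.Agent.Helper13_LAP.Mdt

/-!
# LPY: module MD
-/

set_option autoImplicit false

namespace Pool.Agent.LPY.H81

open Pool.Agent.LAX
open scoped Classical

/-- **MD** -/
theorem md : MdStmt := by
  intro α β _ _ M1 M2 X Y h1 h2 hX hY
  have := Fintype.ofFinite α
  have := Fintype.ofFinite β
  have e1 : ∀ a, a ∈ (Set.toFinite M1).toFinset ↔ a ∈ M1 := fun a => Set.Finite.mem_toFinset _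
  have e2 : ∀ a, a ∈ (Set.toFinite M2).toFinset ↔ a ∈ M2 := fun a => Set.Finite.mem_toFinset _
  obtain ⟨M, hM, hPI, hd, hr⟩ := Pool.Agent.LAP.H13.mdt α β
    ((Set.toFinite M1).toFinset ∪ (Set.toFinite M2).toFinset)
    (Set.toFinite M1).toFinset (Set.toFinite M2).toFinset
    Finset.subset_union_left Finset.subset_union_right
    ⟨fun x y y' a b => h1.1 x y y' ((e1 _).1 a) ((e1 _).1 b),
      fun x x' y a b => h1.2 x x' y ((e1 _).1 a) ((e1 _).1 b)⟩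
    ⟨fun x y y' a b => h2.1 x y y' ((e2 _).1 a) ((e2 _).1 b),
      fun x x' y a b => h2.2 x x' y ((e2 _).1 a) ((e2 _).1 b)⟩
  refine ⟨{a | a ∈ M}, ?_, ⟨fun x y y' a b => hPI.1 x y y' a b,
    fun x x' y a b => hPI.2 x x' y a b⟩, ?_, ?_⟩
  · intro a ha
    have := hM ha
    rw [Finset.mem_union] at this
    rcases this with h | h
    · exact Or.inl ((e1 a).1 h)
    · exact Or.inr ((e2 a).1 h)
  · intro x hx
    obtain ⟨y, hy⟩ := hX hx
    have h3 : x ∈ Pool.Agent.LAP.dom M :=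
      hd (Pool.Agent.LAP.mem_dom.2 ⟨y, (e1 _).2 hy⟩)
    obtain ⟨y', hy'⟩ := Pool.Agent.LAP.mem_dom.1 h3
    exact ⟨y', hy'⟩
  · intro y hy
    obtain ⟨x, hx⟩ := hY hy
    have h3 : y ∈ Pool.Agent.LAP.ran M :=
      hr (Pool.Agent.LAP.mem_ran.2 ⟨x, (e2 _).2 hx⟩)
    obtain ⟨x', hx'⟩ := Pool.Agent.LAP.mem_ran.1 h3
    exact ⟨x', hx'⟩

end Pool.Agent.LPY.H81
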